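import Pool.Agent.Work.MP_bfb3ed_al.Phi
import Pool.Agent.Work.MP_bfb3ed_al.ModD
import Pool.Agent.Work.MP_bfb3ed_al.Covers

set_option autoImplicit false

namespace Pool.Agent.Results.MP_bfb3ed_al.ConnectedCovers

/-- Every connected topological group `G` with a covering homomorphism `π : G → SL(2, ℝ)`, in
particular the universal covering group of `SL(2, ℝ)`, embeds as an abstract group into the group
of permutations of the natural numbers. -/
theorem result (G : Type*) [Group G] [TopologicalSpace G] [IsTopologicalGroup G]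
    [ConnectedSpace G] (π : G →* Matrix.SpecialLinearGroup (Fin 2) ℝ) (hπ : IsCoveringMap π) :
    ∃ φ : G →* Equiv.Perm ℕ, Function.Injective φ := by
  obtain ⟨Φ, hΦ⟩ := Pool.Agent.Work.MP_bfb3ed_al.exists_Phi
  obtain ⟨B, g, c, h1, h2⟩ := Pool.Agent.Work.MP_bfb3ed_al.core_of_Phi Φ hΦ
  exact Pool.Agent.Work.MP_bfb3ed_al.Covers.cover_of_core B g c h1 h2 π hπ

end Pool.Agent.Results.MP_bfb3ed_al.ConnectedCovers
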